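import Pool.Agent.Helper42.PW.Goals5
import Pool.Agent.Helper38.FD.Twist
import Pool.Agent.Helper70.PW.LPRM
import Mathlib.RingTheory.Invariant.Profinite

/-!
# Project W (MP_fc6b1e_nt): packet W_DEC

A character which is trivial on the decomposition groups: the prime splits completely in its field.
-/

set_option autoImplicit false

namespace Pool.Agent.Helper30.PW

open NumberField Polynomial Module IsDedekindDomain
open _root_.Pool.Agent.Helper42.PW
open _root_.Pool.Agent.Helper51.RP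
open _root_.Pool.Agent.Helper32.RDV (PI mem_PI norm_int_le wt)

section trans

variable {E Ω : Type} [Field E] [Field Ω] [Algebra E Ω]

theorem coe_smul (g : Ω ≃ₐ[E] Ω) (x : 𝓞 Ω) : ((g • x : 𝓞 Ω) : Ω) = g (x : Ω) := rfl

/-- The Galois group acts transitively on the primes above a prime. -/
theorem trans_primes [IsGalois E Ω] (P Q : Ideal (𝓞 Ω)) [P.IsPrime] [Q.IsPrime]
    (h : P.under (𝓞 E) = Q.under (𝓞 E)) :
    ∃ g : Ω ≃ₐ[E] Ω, ∀ b : 𝓞 Ω, b ∈ P ↔ g • b ∈ Q := by
  let _ : TopologicalSpace (𝓞 Ω) := ⊥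
  have : DiscreteTopology (𝓞 Ω) := ⟨rfl⟩
  have : SMulCommClass (Ω ≃ₐ[E] Ω) (𝓞 E) (𝓞 Ω) := by
    constructor
    intro g a b
    apply RingOfIntegers.ext
    rw [coe_smul, Algebra.smul_def, Algebra.smul_def]
    change g (algebraMap E Ω (a : E) * (b : Ω)) = algebraMap E Ω (a : E) * g (b : Ω)
    rw [map_mul, AlgEquiv.commutes]
  have hc : ContinuousSMul (Ω ≃ₐ[E] Ω) (𝓞 Ω) := by
    rw [continuousSMul_iff_stabilizer_isOpen]
    intro x
    have hx : IsIntegral E (x : Ω) := Algebra.IsIntegral.isIntegral (x : Ω)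
    have hf : FiniteDimensional E (IntermediateField.adjoin E {(x : Ω)}) :=
      IntermediateField.adjoin.finiteDimensional hx
    refine Subgroup.isOpen_mono
      (H₁ := (IntermediateField.adjoin E {(x : Ω)}).fixingSubgroup) ?_
      (IntermediateField.fixingSubgroup_isOpen _)
    intro g hg
    rw [MulAction.mem_stabilizer_iff]
    apply RingOfIntegers.ext
    rw [coe_smul]
    exact (IntermediateField.mem_fixingSubgroup_iff _ _).1 hg _
      (IntermediateField.mem_adjoin_simple_self E (x : Ω))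
  have hi : Algebra.IsInvariant (𝓞 E) (𝓞 Ω) (Ω ≃ₐ[E] Ω) := by
    constructor
    intro b hb
    have h1 : ∀ g : Ω ≃ₐ[E] Ω, g (b : Ω) = b := by
      intro g
      rw [← coe_smul, hb g]
    obtain ⟨a, ha⟩ := (InfiniteGalois.mem_range_algebraMap_iff_fixed (b : Ω)).2 h1
    have ha2 : IsIntegral ℤ a := by
      have h2 : IsIntegral ℤ (algebraMap E Ω a) := by
        rw [ha]
        exact b.2
      exact (isIntegral_algebraMap_iff (algebraMap E Ω).injective).1 h2
    exact ⟨⟨a, ha2⟩, RingOfIntegers.ext ha⟩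
  obtain ⟨g, hg⟩ := Algebra.IsInvariant.exists_smul_of_under_eq_of_profinite
    (A := 𝓞 E) (B := 𝓞 Ω) (G := Ω ≃ₐ[E] Ω) P Q h
  refine ⟨g, fun b => ?_⟩
  rw [hg, Ideal.smul_mem_pointwise_smul_iff]

end trans

section norm

variable {p : ℕ} [hp : Fact p.Prime] {k : Type} [NormedField k] [NormedAlgebra ℚ_[p] k]
  [IsUltrametricDist k] {Ω : Type} [Field Ω]

instance PI_isPrime (τ : Ω →+* k) : (PI τ).IsPrime := by
  constructor
  · rw [Ideal.ne_top_iff_one, mem_PI]
    simp
  · intro a b hab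
    by_contra hcon
    push Not at hcon
    rw [mem_PI] at hab
    rw [mem_PI, mem_PI] at hcon
    have h1 : ‖τ (a : Ω)‖ = 1 := le_antisymm (norm_int_le τ a) (not_lt.1 hcon.1)
    have h2 : ‖τ (b : Ω)‖ = 1 := le_antisymm (norm_int_le τ b) (not_lt.1 hcon.2)
    have e : ((a * b : 𝓞 Ω) : Ω) = (a : Ω) * b := by push_cast; rfl
    rw [e, map_mul, norm_mul, h1, h2] at hab
    norm_num at hab

/-- Two embeddings of a number field which define the same prime define the same norm. -/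
theorem norm_eq_of_wt {N : Type} [Field N] [NumberField N] (τ τ' : N →+* k)
    (h : wt p τ = wt p τ') (x : N) : ‖τ x‖ = ‖τ' x‖ := by
  by_cases hx : x = 0
  · subst hx
    rw [map_zero, map_zero]
  have hp0 : (p : N) ≠ 0 := Nat.cast_ne_zero.2 hp.out.ne_zero
  set W := wt p τ with hW
  have hle : ∀ z : N, W.valuation N z = 1 → ‖τ z‖ = 1 ∧ ‖τ' z‖ = 1 := by
    intro z hz
    have hz0 : z ≠ 0 := by
      rintro rfl
      rw [map_zero] at hz
      exact zero_ne_one hz
    have hz' : W.valuation N z⁻¹ = 1 := by rw [map_inv₀, hz, inv_one]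
    have key : ∀ t : N →+* k, wt p t = W → ‖t z‖ = 1 := by
      intro t ht
      have h1 := (Pool.Agent.Helper70.PW.le_one_iff (p := p) t z).1 (by rw [ht]; exact hz.le)
      have h2 := (Pool.Agent.Helper70.PW.le_one_iff (p := p) t z⁻¹).1 (by rw [ht]; exact hz'.le)
      have h0 : 0 < ‖t z‖ := norm_pos_iff.2 (by rwa [Ne, map_eq_zero])
      rw [map_inv₀, norm_inv, inv_le_one₀ h0] at h2
      exact le_antisymm h1 h2
    exact ⟨key τ rfl, key τ' h.symm⟩
  have hvp : W.valuation N (p : N) < 1 := Pool.Agent.Helper32.RDV.wt_p τ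
  have hvp0 : W.valuation N (p : N) ≠ 0 := (Valuation.ne_zero_iff _).2 hp0
  have hvx0 : W.valuation N x ≠ 0 := (Valuation.ne_zero_iff _).2 hx
  set e : ℤ := -WithZero.log (W.valuation N (p : N)) with he
  set n : ℤ := -WithZero.log (W.valuation N x) with hn
  have he0 : 0 < e := by
    have h1 : WithZero.log (W.valuation N (p : N)) < 0 := by
      rw [← WithZero.log_one]
      exact (WithZero.log_lt_log hvp0 one_ne_zero).2 hvp
    omega
  have h1 : W.valuation N (x ^ e * (p : N) ^ (-n)) = 1 := by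
    rw [map_mul, map_zpow₀, map_zpow₀]
    rw [← WithZero.exp_log hvp0, ← WithZero.exp_log hvx0, ← WithZero.exp_zsmul,
      ← WithZero.exp_zsmul, ← WithZero.exp_add, ← WithZero.exp_zero]
    congr 1
    rw [smul_eq_mul, smul_eq_mul, hn, he]
    ring
  obtain ⟨h2, h3⟩ := hle _ h1
  rw [map_mul, map_zpow₀, map_zpow₀, map_natCast, norm_mul, norm_zpow] at h2 h3
  have h4 : ‖τ x‖ ^ e = ‖τ' x‖ ^ e := by
    have h5 : ‖(p : k) ^ (-n)‖ ≠ 0 := by
      intro h0
      rw [h0, mul_zero] at h2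
      exact zero_ne_one h2
    exact mul_right_cancel₀ h5 (h2.trans h3.symm)
  obtain ⟨m, hm⟩ := Int.eq_ofNat_of_zero_le he0.le
  have hm0 : m ≠ 0 := by
    rintro rfl
    rw [hm] at he0
    exact absurd he0 (by simp)
  rw [hm] at h4
  rw [zpow_natCast, zpow_natCast] at h4
  exact (pow_left_inj₀ (norm_nonneg _) (norm_nonneg _) hm0).1 h4

include hp in
/-- Two embeddings which define the same prime of the ring of all the integers define the same norm. -/
theorem norm_eq_of_PI [CharZero Ω] [Algebra.IsAlgebraic ℚ Ω] (τ τ' : Ω →+* k)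
    (h : PI τ = PI τ') (x : Ω) : ‖τ x‖ = ‖τ' x‖ := by
  have hx : IsIntegral ℚ x := Algebra.IsIntegral.isIntegral x
  have hf : FiniteDimensional ℚ (IntermediateField.adjoin ℚ {x}) :=
    IntermediateField.adjoin.finiteDimensional hx
  let N := IntermediateField.adjoin ℚ {x}
  have hN : NumberField N := { to_charZero := inferInstance, to_finiteDimensional := hf }
  have h1 : wt p (τ.comp (algebraMap N Ω)) = wt p (τ'.comp (algebraMap N Ω)) := by
    apply HeightOneSpectrum.ext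
    ext b
    have h2 : (algebraMap (𝓞 N) (𝓞 Ω) b) ∈ PI τ ↔ (algebraMap (𝓞 N) (𝓞 Ω) b) ∈ PI τ' := by
      rw [h]
    exact h2
  exact norm_eq_of_wt (p := p) _ _ h1 ⟨x, IntermediateField.mem_adjoin_simple_self ℚ x⟩

end norm

/-- The first part: the decomposition group of `V` in `Gal(F/K)` is trivial. -/
theorem splF_of_decT (p : ℕ) [Fact p.Prime] (K : Type) [Field K] [NumberField K]
    (χ : Pool.Agent.Helper38.FD.Chr K (AlgebraicClosure K) ℂ_[p])
    (F : IntermediateField K (AlgebraicClosure K)) [NumberField F]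
    (hcut : Pool.Agent.Helper38.FD.CutsOut χ F) (σ : K →+* ℂ_[p]) (hσ : DecT χ σ) :
    SplF σ F := by
  have iG : IsGalois K (AlgebraicClosure K) := inferInstance
  have iF : IsGalois K F := Pool.Agent.Helper38.FD.isGalois_of_cutsOut hcut
  have iGF : IsGalois F (AlgebraicClosure K) := IsGalois.tower_top_intermediateField F
  have iQ : Algebra.IsAlgebraic ℚ (AlgebraicClosure K) :=
    Algebra.IsAlgebraic.trans ℚ K (AlgebraicClosure K)
  intro V hV g hg
  -- the embedding `τ₀`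
  obtain ⟨τ₀, hτ₀⟩ : ∃ τ₀ : AlgebraicClosure K →+* ℂ_[p],
      τ₀.comp (algebraMap K (AlgebraicClosure K)) = σ := by
    let _ : Algebra K ℂ_[p] := σ.toAlgebra
    refine ⟨((IsAlgClosed.lift : AlgebraicClosure K →ₐ[K] ℂ_[p]) :
      AlgebraicClosure K →+* ℂ_[p]), ?_⟩
    exact AlgHom.comp_algebraMap _
  -- a prime above `V`
  have hVmax : V.asIdeal.IsMaximal := V.isMaximal
  obtain ⟨MV, hMV, hMVl⟩ := Ideal.exists_maximal_ideal_liesOver_of_isIntegral
    (S := 𝓞 (AlgebraicClosure K)) V.asIdeal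
  have hMVp : MV.IsPrime := hMV.isPrime
  have hMVV : ∀ x : 𝓞 F, algebraMap (𝓞 F) (𝓞 (AlgebraicClosure K)) x ∈ MV ↔ x ∈ V.asIdeal := by
    intro x
    rw [hMVl.over]
    rfl
  have hu : MV.under (𝓞 K) = (PI τ₀).under (𝓞 K) := by
    ext x
    have h1 : algebraMap (𝓞 F) (𝓞 (AlgebraicClosure K)) (algebraMap (𝓞 K) (𝓞 F) x) ∈ MV ↔
        ‖σ (x : K)‖ < 1 := (hMVV _).trans (hV x)
    have h2 : algebraMap (𝓞 K) (𝓞 (AlgebraicClosure K)) x ∈ PI τ₀ ↔ ‖σ (x : K)‖ < 1 := by
      rw [mem_PI, ← hτ₀]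
      rfl
    exact h1.trans h2.symm
  obtain ⟨h, hh⟩ := trans_primes (E := K) MV (PI τ₀) hu
  set τ : AlgebraicClosure K →+* ℂ_[p] := τ₀.comp (h : AlgebraicClosure K →+* AlgebraicClosure K)
    with hτ
  have hτV : ∀ x : 𝓞 F, ‖τ (algebraMap F (AlgebraicClosure K) (x : F))‖ < 1 ↔ x ∈ V.asIdeal := by
    intro x
    rw [← hMVV, hh]
    rfl
  -- a lifting of `g`
  obtain ⟨g₁, hg₁⟩ := Pool.Agent.Helper38.FD.exists_lift (Ω := AlgebraicClosure K) g
  have hu2 : (PI τ).under (𝓞 F) =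
      (PI (τ.comp (g₁ : AlgebraicClosure K →+* AlgebraicClosure K))).under (𝓞 F) := by
    ext x
    have h1 : algebraMap (𝓞 F) (𝓞 (AlgebraicClosure K)) x ∈ PI τ ↔ x ∈ V.asIdeal := hτV x
    have h2 : algebraMap (𝓞 F) (𝓞 (AlgebraicClosure K)) x ∈
        PI (τ.comp (g₁ : AlgebraicClosure K →+* AlgebraicClosure K)) ↔ x ∈ V.asIdeal := by
      rw [mem_PI]
      change ‖τ (g₁ (algebraMap F (AlgebraicClosure K) (x : F)))‖ < 1 ↔ _
      rw [hg₁ (x : F)]
      have h3 := hτV (g • x)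
      have h4 : ((g • x : 𝓞 F) : F) = g (x : F) := rfl
      rw [h4] at h3
      rw [h3, ← V.valuation_lt_one_iff_mem (K := F), ← V.valuation_lt_one_iff_mem (K := F)]
      change V.valuation F (g (x : F)) < 1 ↔ V.valuation F (x : F) < 1
      rw [hg]
    exact h1.trans h2.symm
  obtain ⟨h₂, hh₂⟩ := trans_primes (E := F) (PI τ)
    (PI (τ.comp (g₁ : AlgebraicClosure K →+* AlgebraicClosure K))) hu2
  let gt : AlgebraicClosure K ≃ₐ[K] AlgebraicClosure K := g₁ * h₂.restrictScalars K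
  have hgt : ∀ x, gt x = g₁ (h₂ x) := fun _ => rfl
  have hPI : PI τ = PI (τ.comp (gt : AlgebraicClosure K →+* AlgebraicClosure K)) := by
    ext b
    rw [hh₂]
    rfl
  have hnorm : ∀ x, ‖τ (gt x)‖ = ‖τ x‖ := fun x => (norm_eq_of_PI (p := p) _ _ hPI x).symm
  have hτσ : τ.comp (algebraMap K (AlgebraicClosure K)) = σ := by
    rw [← hτ₀]
    ext x
    change τ₀ (h (algebraMap K (AlgebraicClosure K) x)) = τ₀ (algebraMap K (AlgebraicClosure K) x)
    rw [AlgEquiv.commutes]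
  have hχ := hσ τ hτσ gt hnorm
  rw [hcut gt] at hχ
  ext x
  have h1 := hχ (x : AlgebraicClosure K) x.2
  rw [hgt] at h1
  have h2 : h₂ (x : AlgebraicClosure K) = (x : AlgebraicClosure K) := h₂.commutes x
  rw [h2] at h1
  have h3 := hg₁ x
  change g₁ (x : AlgebraicClosure K) = ((g x : F) : AlgebraicClosure K) at h3
  rw [← h3]
  exact h1

theorem nonempty_hom (F A : Type) [Field F] [Field A] [Algebra F A] [IsAlgClosed A] :
    Nonempty (AlgebraicClosure F →+* A) :=
  ⟨(IsAlgClosed.lift (R := F) (S := AlgebraicClosure F) (M := A)).toRingHom⟩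

/-- **W_DEC** -/
theorem w_dec : Pool.Agent.Helper42.PW.W_DEC := by
  intro p hp K _ _ χ F _ hcut
  refine ⟨fun σ hσ => splF_of_decT p K χ F hcut σ hσ, fun hall w hw => ?_⟩
  have hne : Nonempty (AlgebraicClosure ℚ →+* ℂ_[p]) :=
    nonempty_hom ℚ ℂ_[p]
  obtain ⟨τ, hτ⟩ := Pool.Agent.Helper70.PW.l_prm p ℂ_[p] hne F w hw
  refine splF_of_decT p K χ F hcut (τ.comp (algebraMap K F)) (hall _) w fun x => ?_
  rw [← w.valuation_lt_one_iff_mem (K := F)]
  have h1 := hτ 1 (algebraMap (𝓞 F) F (algebraMap (𝓞 K) (𝓞 F) x))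
  rw [map_one, map_one, norm_one] at h1
  rw [← not_le, h1, not_le]
  rfl

end Pool.Agent.Helper30.PW
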